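import Pool.Agent.Q63.LH.Stm

/-!
PROJECT LH (helper63), job TRI (helper153): the trilinear term vanishes on the Fourier side.
-/

set_option autoImplicit false

open MeasureTheory Set Filter
open scoped ComplexConjugate

namespace Pool.Agent.Q153.LH

open Pool.Agent.W785.QR (E conv sy nl)
open Pool.Agent.Q63.LH (S_TRI)

/-- one time convolution -/
noncomputable def cv (f g : E → ℂ) (ξ : E) : ℂ := ∫ η, f η * g (ξ - η)

theorem coord_le (ξ : E) (k : Fin 3) : |ξ k| ≤ ‖ξ‖ := PiLp.norm_apply_le ξ k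

/-- the unprojected nonlinear term -/
noncomputable def gl (a : Fin 3 → E → ℂ) (l : Fin 3) (ξ : E) : ℂ :=
  2 * (Real.pi : ℂ) * Complex.I * ∑ k, ((ξ k : ℝ) : ℂ) * cv (a k) (a l) ξ

/-- the nonlinear term is the projection -/
theorem nl_eq (a : Fin 3 → E → ℂ) (j : Fin 3) (ξ : E) :
    nl (fun j _ => a j) j 0 ξ =
      gl a j ξ - ((ξ j : ℝ) : ℂ) * (((‖ξ‖ ^ 2 : ℝ) : ℂ)⁻¹ * ∑ l, ((ξ l : ℝ) : ℂ) * gl a l ξ) := by
  have h1 : nl (fun j _ => a j) j 0 ξ = ∑ k, ∑ l, sy ξ j k l * cv (a k) (a l) ξ := rfl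
  rw [h1]
  have h2 : ∀ k l, sy ξ j k l * cv (a k) (a l) ξ =
      (if l = j then 2 * (Real.pi : ℂ) * Complex.I * (((ξ k : ℝ) : ℂ) * cv (a k) (a l) ξ) else 0) -
      ((ξ j : ℝ) : ℂ) * (((‖ξ‖ ^ 2 : ℝ) : ℂ)⁻¹ * (((ξ l : ℝ) : ℂ) * (2 * (Real.pi : ℂ) * Complex.I *
        (((ξ k : ℝ) : ℂ) * cv (a k) (a l) ξ)))) := by
    intro k l
    unfold sy
    push_cast
    by_cases h : l = j
    · rw [if_pos h, if_pos h]
      ring
    · rw [if_neg h, if_neg h]
      ring
  simp only [h2, Finset.sum_sub_distrib, Finset.sum_ite_eq', Finset.mem_univ, if_true]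
  congr 1
  · unfold gl
    rw [Finset.mul_sum]
  · simp only [← Finset.mul_sum]
    rw [Finset.sum_comm]
    unfold gl
    simp only [← Finset.mul_sum]

/-- pairing with divergence free vectors -/
theorem pair_nl (a b : Fin 3 → E → ℂ) (ξ : E) (hb : ∑ j, ((ξ j : ℝ) : ℂ) * b j ξ = 0) :
    ∑ j, conj (b j ξ) * nl (fun j _ => a j) j 0 ξ = ∑ j, conj (b j ξ) * gl a j ξ := by
  have h1 : ∑ j, ((ξ j : ℝ) : ℂ) * conj (b j ξ) = 0 := by
    have h2 := congrArg conj hb
    rw [map_sum, map_zero] at h2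
    rw [← h2]
    refine Finset.sum_congr rfl fun j _ => ?_
    rw [map_mul, Complex.conj_ofReal]
  have h3 : ∀ j, conj (b j ξ) * nl (fun j _ => a j) j 0 ξ = conj (b j ξ) * gl a j ξ -
      (((ξ j : ℝ) : ℂ) * conj (b j ξ)) *
        (((‖ξ‖ ^ 2 : ℝ) : ℂ)⁻¹ * ∑ l, ((ξ l : ℝ) : ℂ) * gl a l ξ) := by
    intro j
    rw [nl_eq]
    ring
  rw [Finset.sum_congr rfl fun j _ => h3 j, Finset.sum_sub_distrib, ← Finset.sum_mul, h1, zero_mul,
    sub_zero]

theorem meas_coord (k : Fin 3) : Measurable fun ξ : E => ((ξ k : ℝ) : ℂ) := by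
  have : Continuous fun ξ : E => ((ξ k : ℝ) : ℂ) := by fun_prop
  exact this.measurable

/-- the symmetric form of the trilinear term -/
noncomputable def Ps (a : Fin 3 → E → ℂ) (j k : Fin 3) (z : E × E) : ℂ :=
  ((z.1 k : ℝ) : ℂ) * a j z.1 * a k (-z.1 - z.2) * a j z.2

theorem int_aux {G H : E → ℝ} (hGm : Measurable G) (hHm : Measurable H)
    (hG : Integrable fun p => G p ^ 2) (hH : Integrable H) :
    Integrable (fun z : E × E => G (-z.1 - z.2) ^ 2 * H z.2) (volume.prod volume) := by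
  rw [integrable_prod_iff' (by
    refine Measurable.aestronglyMeasurable ?_
    exact ((hGm.comp (measurable_fst.neg.sub measurable_snd)).pow_const 2).mul
      (hHm.comp measurable_snd))]
  have h1 : ∀ q : E, (fun p : E => G (-p - q) ^ 2) = fun p : E => G (-q - p) ^ 2 := by
    intro q
    funext p
    rw [show -p - q = -q - p by abel]
  constructor
  · refine Eventually.of_forall fun q => ?_
    change Integrable (fun p : E => G (-p - q) ^ 2 * H q) volume
    have h2 : Integrable (fun p : E => G (-p - q) ^ 2) volume := by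
      rw [h1]
      exact hG.comp_sub_left (-q)
    exact h2.mul_const _
  · have h2 : (fun q : E => ∫ p : E, ‖G (-p - q) ^ 2 * H q‖) =
        fun q => (∫ p, G p ^ 2) * ‖H q‖ := by
      funext q
      have h3 : ∀ p : E, ‖G (-p - q) ^ 2 * H q‖ = G (-q - p) ^ 2 * ‖H q‖ := by
        intro p
        rw [norm_mul, Real.norm_of_nonneg (sq_nonneg _), show -p - q = -q - p by abel]
      simp only [h3]
      rw [integral_mul_const, integral_sub_left_eq_self (fun p => G p ^ 2) volume (-q)]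
    change Integrable (fun q : E => ∫ p : E, ‖G (-p - q) ^ 2 * H q‖) volume
    rw [h2]
    exact hH.norm.const_mul _

theorem Ps_int {a : Fin 3 → E → ℂ} (hm : ∀ j, Measurable (a j)) (h1 : ∀ j, Integrable (a j))
    (h2 : ∀ j, Integrable fun ξ => ‖a j ξ‖ ^ 2)
    (h3 : ∀ j, Integrable fun ξ => (‖ξ‖ * ‖a j ξ‖) ^ 2) (j k : Fin 3) :
    Integrable (Ps a j k) (volume.prod volume) := by
  have hmeas : Measurable (Ps a j k) :=
    ((((meas_coord k).comp measurable_fst).mul ((hm j).comp measurable_fst)).mul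
      ((hm k).comp (measurable_fst.neg.sub measurable_snd))).mul ((hm j).comp measurable_snd)
  have i1 : Integrable (fun z : E × E => (‖z.1‖ * ‖a j z.1‖) ^ 2 * ‖a j z.2‖)
      (volume.prod volume) := (h3 j).mul_prod (h1 j).norm
  have i2 : Integrable (fun z : E × E => ‖a k (-z.1 - z.2)‖ ^ 2 * ‖a j z.2‖)
      (volume.prod volume) := int_aux (G := fun ξ => ‖a k ξ‖) (hm k).norm (hm j).norm (h2 k)
        (h1 j).norm
  refine (i1.add i2).mono' hmeas.aestronglyMeasurable (Eventually.of_forall fun z => ?_)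
  unfold Ps
  rw [norm_mul, norm_mul, norm_mul, Complex.norm_real, Real.norm_eq_abs]
  have e1 : |z.1 k| * ‖a j z.1‖ ≤ ‖z.1‖ * ‖a j z.1‖ :=
    mul_le_mul_of_nonneg_right (coord_le z.1 k) (norm_nonneg _)
  have e2 : |z.1 k| * ‖a j z.1‖ * ‖a k (-z.1 - z.2)‖ ≤
      (‖z.1‖ * ‖a j z.1‖) ^ 2 + ‖a k (-z.1 - z.2)‖ ^ 2 := by
    have e3 : |z.1 k| * ‖a j z.1‖ * ‖a k (-z.1 - z.2)‖ ≤
        ‖z.1‖ * ‖a j z.1‖ * ‖a k (-z.1 - z.2)‖ := mul_le_mul_of_nonneg_right e1 (norm_nonneg _)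
    nlinarith [sq_nonneg (‖z.1‖ * ‖a j z.1‖ - ‖a k (-z.1 - z.2)‖),
      sq_nonneg (‖z.1‖ * ‖a j z.1‖ + ‖a k (-z.1 - z.2)‖)]
  have e4 := mul_le_mul_of_nonneg_right e2 (norm_nonneg (a j z.2))
  change _ ≤ (‖z.1‖ * ‖a j z.1‖) ^ 2 * ‖a j z.2‖ + ‖a k (-z.1 - z.2)‖ ^ 2 * ‖a j z.2‖
  linarith

/-- one term of the trilinear form -/
theorem term_eq {a : Fin 3 → E → ℂ} (hh : ∀ j ξ, a j (-ξ) = conj (a j ξ)) (j k : Fin 3) (ξ : E) :
    conj (a j ξ) * (((ξ k : ℝ) : ℂ) * cv (a k) (a j) ξ) = -∫ q, Ps a j k (-ξ, q) := by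
  have h1 : cv (a k) (a j) ξ = ∫ q, a k (ξ - q) * a j q := by
    unfold cv
    rw [← integral_sub_left_eq_self (fun η => a k η * a j (ξ - η)) volume ξ]
    refine integral_congr_ae (Eventually.of_forall fun q => ?_)
    change a k (ξ - q) * a j (ξ - (ξ - q)) = a k (ξ - q) * a j q
    rw [sub_sub_cancel]
  have h2 : ∀ q, Ps a j k (-ξ, q) = -(conj (a j ξ) * ((ξ k : ℝ) : ℂ)) * (a k (ξ - q) * a j q) := by
    intro q
    unfold Ps
    change (((-ξ) k : ℝ) : ℂ) * a j (-ξ) * a k (-(-ξ) - q) * a j q = _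
    rw [hh, neg_neg]
    have h3 : (-ξ) k = -(ξ k) := rfl
    rw [h3]
    push_cast
    ring
  rw [h1]
  simp only [h2]
  rw [integral_const_mul]
  ring

/-- **TRI.** -/
theorem proof_tri : S_TRI := by
  intro a hm h1 h2 h3 hh hd
  have hP := Ps_int hm h1 h2 h3
  have hsum : ∀ ξ, ∑ j, conj (a j ξ) * nl (fun j _ => a j) j 0 ξ =
      ∑ j, ∑ k, (2 * (Real.pi : ℂ) * Complex.I) * -∫ q, Ps a j k (-ξ, q) := by
    intro ξ
    rw [pair_nl a a ξ (hd ξ)]
    refine Finset.sum_congr rfl fun j _ => ?_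
    unfold gl
    rw [Finset.mul_sum, Finset.mul_sum]
    refine Finset.sum_congr rfl fun k _ => ?_
    rw [← term_eq hh j k ξ]
    ring
  have hint : ∀ j k, Integrable fun ξ => (2 * (Real.pi : ℂ) * Complex.I) * -∫ q, Ps a j k (-ξ, q) := by
    intro j k
    have h4 : Integrable (fun p => ∫ q, Ps a j k (p, q)) := (hP j k).integral_prod_left
    exact (h4.comp_neg.neg).const_mul _
  simp only [hsum]
  refine ⟨integrable_finsetSum _ fun j _ => integrable_finsetSum _ fun k _ => hint j k, ?_⟩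
  rw [integral_finsetSum _ fun j _ => integrable_finsetSum _ fun k _ => hint j k]
  refine Finset.sum_eq_zero fun j _ => ?_
  rw [integral_finsetSum _ fun k _ => hint j k]
  have h5 : ∀ k, ∫ ξ, (2 * (Real.pi : ℂ) * Complex.I) * -∫ q, Ps a j k (-ξ, q) =
      -(2 * (Real.pi : ℂ) * Complex.I) * ∫ z, Ps a j k z ∂(volume.prod volume) := by
    intro k
    rw [integral_const_mul, integral_neg, integral_neg_eq_self (fun p => ∫ q, Ps a j k (p, q)),
      integral_prod _ (hP j k)]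
    ring
  rw [Finset.sum_congr rfl fun k _ => h5 k, ← Finset.mul_sum,
    ← integral_finsetSum _ fun k _ => hP j k]
  have h6 : ∫ z, ∑ k, Ps a j k z ∂((volume : Measure E).prod volume) = 0 := by
    have h7 : ∀ z : E × E, ∑ k, Ps a j k z.swap = -∑ k, Ps a j k z := by
      intro z
      rw [eq_neg_iff_add_eq_zero, ← Finset.sum_add_distrib]
      have h8 : ∀ k, Ps a j k z.swap + Ps a j k z =
          -(a j z.1 * a j z.2) * ((((-z.1 - z.2) k : ℝ) : ℂ) * a k (-z.1 - z.2)) := by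
        intro k
        unfold Ps
        change ((z.2 k : ℝ) : ℂ) * a j z.2 * a k (-z.2 - z.1) * a j z.1 +
          ((z.1 k : ℝ) : ℂ) * a j z.1 * a k (-z.1 - z.2) * a j z.2 = _
        rw [show -z.2 - z.1 = -z.1 - z.2 by abel]
        have h9 : (-z.1 - z.2) k = -(z.1 k) - z.2 k := rfl
        rw [h9]
        push_cast
        ring
      rw [Finset.sum_congr rfl fun k _ => h8 k, ← Finset.mul_sum, hd, mul_zero]
    have h8 := integral_prod_swap (μ := (volume : Measure E)) (ν := (volume : Measure E))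
      (fun z : E × E => ∑ k, Ps a j k z)
    simp only [h7] at h8
    rw [integral_neg] at h8
    exact self_eq_neg.mp h8.symm
  rw [h6, mul_zero]

end Pool.Agent.Q153.LH
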